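import Pool.Agent.Q57.FG.Noe
import Pool.Agent.Q57.GM.Gor

/-!
A criterion for the finite generation of a ring which is spanned by almost integral monomials.
-/

set_option autoImplicit false
set_option linter.unusedSectionVars false

open Pool.Agent.Q57.GM Pool.Agent.Q57.FG

namespace Pool.Agent.Q57.CX

variable {k W V ι : Type} [Field k] [CommRing W] [Algebra k W] [AddCommGroup V] [Fintype ι]
  [DecidableEq ι]

/-- **Finite generation.** The algebra `R` contains the monomials in a cone, and is spanned by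
products of monomials in a neighbourhood of the cone with finitely many elements. -/
theorem fg_lat (L : V →+ (ι → ℤ)) (hL : Function.Injective L) (mon : V → W) (h0 : mon 0 = 1)
    (hadd : ∀ γ γ', mon (γ + γ') = mon γ * mon γ') {N0 : ℕ} (b : Fin N0 → W) (cs : ι → ℤ)
    (R : Subalgebra k W) (hR : ∀ γ, (∀ s, 0 ≤ L γ s) → mon γ ∈ R)
    (hspan : ∀ w ∈ R, w ∈ Submodule.span k
      {y | ∃ γ i, (∀ s, - cs s ≤ L γ s) ∧ y = mon γ * b i}) : R.FG := by
  classical
  obtain ⟨G, hG1, hG2⟩ := gordan L hL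
  obtain ⟨F0, hF1, hF2⟩ := dickson L cs {γ | ∀ s, - cs s ≤ L γ s} fun γ hγ => hγ
  obtain ⟨GG, hGG⟩ : ∃ GG : Finset W, GG = G.image mon := ⟨_, rfl⟩
  obtain ⟨FF, hFF⟩ : ∃ FF : Finset W,
    FF = (F0 ×ˢ (Finset.univ : Finset (Fin N0))).image fun y => mon y.1 * b y.2 := ⟨_, rfl⟩
  have hS : ∀ γ, (∀ s, 0 ≤ L γ s) → mon γ ∈ Algebra.adjoin k (GG : Set W) := by
    intro γ hγ
    have key : ∀ γ ∈ AddSubmonoid.closure (G : Set V), mon γ ∈ Algebra.adjoin k (GG : Set W) := by
      intro γ hγ
      induction hγ using AddSubmonoid.closure_induction with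
      | mem g hg =>
        refine Algebra.subset_adjoin ?_
        rw [hGG]
        exact Finset.mem_coe.2 (Finset.mem_image_of_mem _ hg)
      | zero =>
        rw [h0]
        exact Subalgebra.one_mem _
      | add x y _ _ hx hy =>
        rw [hadd]
        exact Subalgebra.mul_mem _ hx hy
    exact key γ (hG2 γ hγ)
  refine fg_of_span GG FF R (fun g hg => ?_) fun w hw => ?_
  · rw [hGG] at hg
    obtain ⟨γ, hγ, rfl⟩ := Finset.mem_image.1 hg
    exact hR γ (hG1 γ hγ).2
  · have h1 := hspan w hw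
    have h2 : ∀ y ∈ {y | ∃ γ i, (∀ s, - cs s ≤ L γ s) ∧ y = mon γ * b i},
        y ∈ Submodule.span (Algebra.adjoin k (GG : Set W)) (FF : Set W) := by
      rintro y ⟨γ, i, hγ, rfl⟩
      obtain ⟨f, hf, hfγ⟩ := hF2 γ hγ
      have h3 : mon γ * b i = (⟨mon (γ - f), hS _ hfγ⟩ : Algebra.adjoin k (GG : Set W)) •
          (mon f * b i) := by
        change _ = mon (γ - f) * (mon f * b i)
        rw [← mul_assoc, ← hadd, sub_add_cancel]
      rw [h3]
      refine Submodule.smul_mem _ _ (Submodule.subset_span ?_)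
      rw [hFF]
      exact Finset.mem_coe.2 (Finset.mem_image.2 ⟨(f, i), Finset.mem_product.2
        ⟨hf, Finset.mem_univ i⟩, rfl⟩)
    have h3 : Submodule.span k {y | ∃ γ i, (∀ s, - cs s ≤ L γ s) ∧ y = mon γ * b i} ≤
        (Submodule.span (Algebra.adjoin k (GG : Set W)) (FF : Set W)).restrictScalars k :=
      Submodule.span_le.2 h2
    exact h3 h1

end Pool.Agent.Q57.CX
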