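import Pool.Agent.Q57.CX.Fg
import Pool.Agent.Q57.FT.Fan

/-!
The finite generation of the multigraded ring of the sections of toroidal divisors, on covers of
products of projective spaces.
-/

set_option autoImplicit false
set_option linter.overlappingInstances false
set_option linter.unusedSectionVars false
set_option maxHeartbeats 1000000

open FF MvPolynomial Pool.Agent.W603.LV Pool.Agent.W602.GT Pool.Agent.W602.Cov
open Pool.Agent.TH756.PR Pool.Agent.TH122.AB Pool.Agent.TH756.PN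
open Pool.Agent.Y169.CH Pool.Agent.Y169.CH.Cvr Pool.Agent.Q57.TP Pool.Agent.Q57.TQ
open Pool.Agent.Q57.GM Pool.Agent.Q57.GH Pool.Agent.Q57.FG Pool.Agent.Q57.GG Pool.Agent.Q57.FT

namespace Pool.Agent.Q57.CX

section lat

variable {N r p : ℕ}

/-- the constraints for the exponents -/
def consC (T : Finset (Fin r → ℕ)) (pv : Fin r → Fin N) (g : Fin r → Fin N → ℤ)
    (β : Fin p → Fin r → ℤ) (L : ℤ) (q : Fin p → T → ℤ) :
    ((Fin p → ℤ) × (Fin N → ℤ)) →+ ((T ⊕ (Fin N ⊕ (Fin p ⊕ Fin r))) → ℤ) :=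
  AddMonoidHom.mk' (fun γ => Sum.elim
    (fun s => L * ∑ k, (s.1 k : ℤ) * γ.2 (pv k) - ∑ i, q i s * γ.1 i)
    (Sum.elim (fun k => γ.2 k) (Sum.elim (fun i => γ.1 i)
      (fun t => ∑ i, γ.1 i * β i t - ∑ b, g t b * γ.2 b)))) (by
    intro x y
    funext s
    rcases s with s | k | i | t
    · simp only [Sum.elim_inl, Pi.add_apply, Prod.fst_add, Prod.snd_add, mul_add,
        Finset.sum_add_distrib]
      ring
    · simp only [Sum.elim_inl, Sum.elim_inr, Pi.add_apply, Prod.snd_add]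
    · simp only [Sum.elim_inl, Sum.elim_inr, Pi.add_apply, Prod.fst_add]
    · simp only [Sum.elim_inr, Pi.add_apply, Prod.fst_add, Prod.snd_add, mul_add, add_mul,
        Finset.sum_add_distrib]
      ring)

variable {T : Finset (Fin r → ℕ)} {pv : Fin r → Fin N} {g : Fin r → Fin N → ℤ}
  {β : Fin p → Fin r → ℤ} {L : ℤ} {q : Fin p → T → ℤ}

theorem consC_vec (γ : (Fin p → ℤ) × (Fin N → ℤ)) (s : T) : consC T pv g β L q γ (Sum.inl s) =
    L * ∑ k, (s.1 k : ℤ) * γ.2 (pv k) - ∑ i, q i s * γ.1 i := rfl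

theorem consC_coord (γ : (Fin p → ℤ) × (Fin N → ℤ)) (k : Fin N) :
    consC T pv g β L q γ (Sum.inr (Sum.inl k)) = γ.2 k := rfl

theorem consC_m (γ : (Fin p → ℤ) × (Fin N → ℤ)) (i : Fin p) :
    consC T pv g β L q γ (Sum.inr (Sum.inr (Sum.inl i))) = γ.1 i := rfl

theorem consC_deg (γ : (Fin p → ℤ) × (Fin N → ℤ)) (t : Fin r) :
    consC T pv g β L q γ (Sum.inr (Sum.inr (Sum.inr t))) =
      ∑ i, γ.1 i * β i t - ∑ b, g t b * γ.2 b := rfl

theorem consC_inj : Function.Injective (consC T pv g β L q) := by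
  rw [injective_iff_map_eq_zero]
  intro γ hγ
  refine Prod.ext ?_ ?_
  · funext i
    exact congrFun hγ (Sum.inr (Sum.inr (Sum.inl i)))
  · funext k
    exact congrFun hγ (Sum.inr (Sum.inl k))

/-- the lattice points with exact constraints satisfy all the inequalities -/
theorem exC_adm {c : Fin p → (Fin r → ℕ) → ℚ} {L : ℕ} (hL : 0 < L) {q : Fin p → T → ℤ}
    (hq : ∀ i (s : T), (L : ℚ) * (- c i s.1) = q i s)
    {γ : (Fin p → ℤ) × (Fin N → ℤ)} (h : ∀ s, 0 ≤ consC T pv g β L q γ s) {v : Fin r → ℕ}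
    {w : (Fin r → ℕ) → ℚ} (hw : ∀ s, 0 ≤ w s) (hwv : ∀ k, ∑ s ∈ T, w s * s k ≤ v k)
    (hwc : ∀ i, - c i v ≤ ∑ s ∈ T, w s * (- c i s)) :
    ∑ i, (γ.1 i : ℚ) * (- c i v) ≤ ((∑ k, (v k : ℤ) * γ.2 (pv k) : ℤ) : ℚ) := by
  classical
  have hLq : (0 : ℚ) < L := by exact_mod_cast hL
  have hm : ∀ i, (0 : ℚ) ≤ γ.1 i := fun i => by
    have h0 := h (Sum.inr (Sum.inr (Sum.inl i)))
    rw [consC_m] at h0
    exact_mod_cast h0
  have h1 : ∀ s : T, ∑ i, (γ.1 i : ℚ) * (- c i s.1) ≤ ∑ k, (s.1 k : ℚ) * γ.2 (pv k) := by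
    intro s
    have h2 := h (Sum.inl s)
    rw [consC_vec] at h2
    have h3 : ((∑ i, q i s * γ.1 i : ℤ) : ℚ) ≤
        ((L * ∑ k, (s.1 k : ℤ) * γ.2 (pv k) : ℤ) : ℚ) := by
      exact_mod_cast (by linarith : ∑ i, q i s * γ.1 i ≤ L * ∑ k, (s.1 k : ℤ) * γ.2 (pv k))
    push_cast at h3
    have h4 : (L : ℚ) * ∑ i, (γ.1 i : ℚ) * (- c i s.1) ≤
        L * ∑ k, (s.1 k : ℚ) * γ.2 (pv k) := by
      refine le_trans (le_of_eq ?_) h3
      rw [Finset.mul_sum]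
      refine Finset.sum_congr rfl fun i _ => ?_
      rw [← hq i s]
      ring
    exact le_of_mul_le_mul_left h4 hLq
  have h2 : ∀ k, (0 : ℚ) ≤ γ.2 (pv k) := fun k => by
    have h0 := h (Sum.inr (Sum.inl (pv k)))
    rw [consC_coord] at h0
    exact_mod_cast h0
  calc ∑ i, (γ.1 i : ℚ) * (- c i v) ≤ ∑ i, (γ.1 i : ℚ) * ∑ s ∈ T, w s * (- c i s) :=
        Finset.sum_le_sum fun i _ => mul_le_mul_of_nonneg_left (hwc i) (hm i)
    _ = ∑ s ∈ T, w s * ∑ i, (γ.1 i : ℚ) * (- c i s) := by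
        simp only [Finset.mul_sum]
        rw [Finset.sum_comm]
        exact Finset.sum_congr rfl fun s _ => Finset.sum_congr rfl fun i _ => by ring
    _ ≤ ∑ s ∈ T, w s * ∑ k, (s k : ℚ) * γ.2 (pv k) :=
        Finset.sum_le_sum fun s hs => mul_le_mul_of_nonneg_left (h1 ⟨s, hs⟩) (hw s)
    _ = ∑ k, (∑ s ∈ T, w s * s k) * γ.2 (pv k) := by
        simp only [Finset.mul_sum, Finset.sum_mul]
        rw [Finset.sum_comm]
        exact Finset.sum_congr rfl fun k _ => Finset.sum_congr rfl fun s _ => by ring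
    _ ≤ ∑ k, (v k : ℚ) * γ.2 (pv k) :=
        Finset.sum_le_sum fun k _ => mul_le_mul_of_nonneg_right (hwv k) (h2 k)
    _ = _ := by
        push_cast
        rfl

end lat

variable {r R N' p : ℕ} {n : Fin r → ℕ} {K : Type} [Field K] [Algebra ℂ K]
  {e : ((i : Fin r) × Fin (n i)) ≃ Fin (N' + 1)} {Φ : Blk ℂ (N' + 1) r} {C : Cvr Φ K R}
  {dF : Fin r → ℕ} {x : ∀ i, Fin (n i + 1) → K} {F : ∀ i, MvPolynomial (Fin (n i + 1)) ℂ}
  {c : Fin p → (Fin r → ℕ) → ℚ} {β : Fin p → Fin r → ℤ} {δ : Fin p → Place ℂ K → ℚ}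

/-- the monomial of a lattice point -/
noncomputable def mC (C : Cvr Φ K R) (x : ∀ i, Fin (n i + 1) → K) (β : Fin p → Fin r → ℤ)
    (θ : K) (γ : (Fin p → ℤ) × (Fin (N' + 1) → ℤ)) : K :=
  θ ^ (- ∑ i, γ.1 i) * (∏ t, x t 0 ^ (∑ i, γ.1 i * β i t)) * ∏ b, C.Y b ^ γ.2 b

theorem mC_zero (θ : K) : mC (p := p) C x β θ 0 = 1 := by
  unfold mC
  simp

theorem mC_add (hx : ∀ t, x t 0 ≠ 0) {θ : K} (hθ : θ ≠ 0)
    (γ γ' : (Fin p → ℤ) × (Fin (N' + 1) → ℤ)) :
    mC C x β θ (γ + γ') = mC C x β θ γ * mC C x β θ γ' := by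
  unfold mC
  have h1 : - ∑ i, (γ + γ').1 i = - ∑ i, γ.1 i + - ∑ i, γ'.1 i := by
    simp only [Prod.fst_add, Pi.add_apply, Finset.sum_add_distrib]
    ring
  have h2 : ∀ t, ∑ i, (γ + γ').1 i * β i t = ∑ i, γ.1 i * β i t + ∑ i, γ'.1 i * β i t := by
    intro t
    simp only [Prod.fst_add, Pi.add_apply, add_mul, Finset.sum_add_distrib]
  have h3 : ∀ b, (γ + γ').2 b = γ.2 b + γ'.2 b := fun b => rfl
  rw [h1, zpow_add₀ hθ]
  simp only [h2, h3]
  have h4 : ∏ t, x t 0 ^ (∑ i, γ.1 i * β i t + ∑ i, γ'.1 i * β i t) =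
      (∏ t, x t 0 ^ (∑ i, γ.1 i * β i t)) * ∏ t, x t 0 ^ (∑ i, γ'.1 i * β i t) := by
    rw [← Finset.prod_mul_distrib]
    exact Finset.prod_congr rfl fun t _ => zpow_add₀ (hx t) _ _
  have h5 : ∏ b, C.Y b ^ (γ.2 b + γ'.2 b) = (∏ b, C.Y b ^ γ.2 b) * ∏ b, C.Y b ^ γ'.2 b := by
    rw [← Finset.prod_mul_distrib]
    exact Finset.prod_congr rfl fun b _ => zpow_add₀ (C.ae_ne (Blk.yp_ne0 Φ b)) _ _
  rw [h4, h5]
  ring

/-- the sections of lattice points -/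
theorem mono_sec (H : Mon e C dF x F) (hcf : ∀ i, CoefT dF x F (c i) (β i) (δ i))
    {μ : Fin p →₀ ℕ} {a : Fin (N' + 1) →₀ ℕ} (hy : ∀ t, (Φ.wbd a t : ℤ) ≤ bt β μ t)
    (hadm : ∀ v, Adm C.M C.a v → ∑ i, (μ i : ℚ) * (- c i v) ≤
      ((∑ k, (v k : ℤ) * a (Φ.c k) : ℤ) : ℚ)) :
    FSec (N' + 1) δ μ ((∏ t, x t 0 ^ (bt β μ t)) * ∏ b, C.Y b ^ a b) := by
  classical
  intro P _
  right
  obtain ⟨α, l', v, hdat⟩ := H.exists_dat P
  have hYne : ∀ b, C.Y b ≠ 0 := fun b => C.ae_ne (Blk.yp_ne0 Φ b)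
  rw [P.ord_mul (Finset.prod_ne_zero_iff.2 fun t _ => zpow_ne_zero _ (H.hx t 0))
    (Finset.prod_ne_zero_iff.2 fun b _ => pow_ne_zero _ (hYne b)),
    ord_prod' P Finset.univ _ fun t _ => zpow_ne_zero _ (H.hx t 0),
    ord_prod' P Finset.univ _ fun b _ => pow_ne_zero _ (hYne b)]
  simp only [P.ord_zpow, P.ord_pow]
  have h1 := ord_mono_low H hdat a
  have h2 : ∑ t, (α t - P.ord (x t 0)) * bt β μ t ≤
      ∑ t, (α t - P.ord (x t 0)) * (Φ.wbd a t : ℤ) := by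
    refine Finset.sum_le_sum fun t _ => ?_
    have h5 : α t - P.ord (x t 0) ≤ 0 := by linarith [hdat.h1 t 0]
    exact mul_le_mul_of_nonpos_left (hy t) h5
  have h3 : ∑ t, (α t - P.ord (x t 0)) * bt β μ t =
      ∑ t, bt β μ t * α t - ∑ t, bt β μ t * P.ord (x t 0) := by
    rw [← Finset.sum_sub_distrib]
    exact Finset.sum_congr rfl fun t _ => by ring
  have h4 : ∑ i, (μ i : ℚ) * (- c i v) ≤ ((∑ k, (v k : ℤ) * a (Φ.c k) : ℤ) : ℚ) := by
    by_cases hv : v = 0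
    · rw [hv]
      refine le_of_eq ?_
      simp [(hcf _).h0]
    · exact hadm v (hdat.adm H hv)
  rw [sum_coef hcf hdat]
  have h5 : ((∑ k, (v k : ℤ) * a (Φ.c k) + ∑ t, bt β μ t * α t : ℤ) : ℚ) ≤
      ((∑ t, bt β μ t * P.ord (x t 0) + ∑ b, (a b : ℤ) * P.ord (C.Y b) : ℤ) : ℚ) := by
    exact_mod_cast (by linarith : ∑ k, (v k : ℤ) * a (Φ.c k) + ∑ t, bt β μ t * α t ≤
      ∑ t, bt β μ t * P.ord (x t 0) + ∑ b, (a b : ℤ) * P.ord (C.Y b))
  rw [Int.cast_add] at h5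
  linarith

/-- **Finite generation**, for divisors with nonpositive coefficients. -/
theorem coxA (H : Mon e C dF x F) (hΦ : Smo Φ) (hcf : ∀ i, CoefT dF x F (c i) (β i) (δ i))
    (hle : ∀ i v, Adm C.M C.a v → c i v ≤ 0)
    (hmul : ∀ i v (r : ℕ), 1 ≤ r → Adm C.M C.a v → - c i (r • v) ≤ r * (- c i v))
    {T : Finset (Fin r → ℕ)} (hTadm : ∀ s ∈ T, Adm C.M C.a s)
    (hTgen : ∀ v, Adm C.M C.a v → ∃ w : (Fin r → ℕ) → ℚ, (∀ s, 0 ≤ w s) ∧
      (∀ k, ∑ s ∈ T, w s * s k ≤ v k) ∧ ∀ i, - c i v ≤ ∑ s ∈ T, w s * (- c i s))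
    {A : Type} [AddCommGroup A] (π : (Fin p → ℤ) →+ A) {θ : K} (hθ : θ ≠ 0)
    (RR : Subalgebra ℂ (AddMonoidAlgebra K A))
    (hR1 : ∀ (μ : Fin p →₀ ℕ) (f : K), FSec (N' + 1) δ μ f →
      AddMonoidAlgebra.single (π fun i => (μ i : ℤ)) (f * (θ ^ ∑ i, μ i)⁻¹) ∈ RR)
    (hR2 : ∀ w ∈ RR, w ∈ Submodule.span ℂ {y | ∃ (μ : Fin p →₀ ℕ) (f : K),
      FSec (N' + 1) δ μ f ∧
        y = AddMonoidAlgebra.single (π fun i => (μ i : ℤ)) (f * (θ ^ ∑ i, μ i)⁻¹)}) :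
    RR.FG := by
  classical
  obtain ⟨L, hL, hden⟩ := Pool.Agent.Y169.TH.exists_den fun s : Fin p × T => - c s.1 s.2.1
  choose q' hq' using hden
  obtain ⟨q, hq⟩ : ∃ q : Fin p → T → ℤ, q = fun i s => q' (i, s) := ⟨_, rfl⟩
  have hqs : ∀ i (s : T), (L : ℚ) * (- c i s.1) = q i s := fun i s => by
    rw [hq]
    exact hq' (i, s)
  obtain ⟨g, hgd⟩ : ∃ g : Fin r → Fin (N' + 1) → ℤ,
    g = fun t b => if Φ.τ b = t then (Φ.wg b : ℤ) else 0 := ⟨_, rfl⟩
  have hwbd : ∀ (a : Fin (N' + 1) →₀ ℕ) t, (Φ.wbd a t : ℤ) = ∑ b, g t b * (a b : ℤ) := by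
    intro a t
    unfold Blk.wbd
    rw [hgd]
    push_cast
    refine Finset.sum_congr rfl fun b _ => ?_
    split_ifs <;> simp
  choose X hX using fun s : T => C.exists_dir (hTadm s.1 s.2).1 (hTadm s.1 s.2).2
  obtain ⟨N0, βK, Q, c1, hQ, hstr⟩ := sec_fun C hΦ X {1}
  have hYne : ∀ b, C.Y b ≠ 0 := fun b => C.ae_ne (Blk.yp_ne0 Φ b)
  obtain ⟨mon, hmon⟩ : ∃ mon : (Fin p → ℤ) × (Fin (N' + 1) → ℤ) → AddMonoidAlgebra K A,
    mon = fun γ => AddMonoidAlgebra.single (π γ.1) (mC C x β θ γ) := ⟨_, rfl⟩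
  obtain ⟨cs, hcs⟩ : ∃ cs : T ⊕ (Fin (N' + 1) ⊕ (Fin p ⊕ Fin r)) → ℤ,
    cs = Sum.elim (fun _ => (L : ℤ) * c1) (Sum.elim (fun _ => 0) (Sum.elim (fun _ => 0)
      fun _ => (c1 : ℤ))) := ⟨_, rfl⟩
  refine fg_lat (consC T Φ.c g β L q) consC_inj mon ?_ (fun γ γ' => ?_)
    (fun i : Fin N0 => AddMonoidAlgebra.single 0 (βK i / Q)) cs RR (fun γ hγ => ?_)
    fun w hw => ?_
  · rw [hmon]
    beta_reduce
    rw [mC_zero, Prod.fst_zero, map_zero]
    rfl
  · rw [hmon]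
    beta_reduce
    rw [mC_add (fun t => H.hx t 0) hθ, AddMonoidAlgebra.single_mul_single, Prod.fst_add, map_add]
  · -- the monomials in the cone are sections
    obtain ⟨μ, hμ⟩ : ∃ μ : Fin p →₀ ℕ, ∀ i, (μ i : ℤ) = γ.1 i :=
      ⟨toN γ.1, fun i => toN_coe (fun i => by
        have h0 := hγ (Sum.inr (Sum.inr (Sum.inl i)))
        rwa [consC_m] at h0) i⟩
    obtain ⟨a, ha⟩ : ∃ a : Fin (N' + 1) →₀ ℕ, ∀ b, (a b : ℤ) = γ.2 b :=
      ⟨toN γ.2, fun i => toN_coe (fun i => by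
        have h0 := hγ (Sum.inr (Sum.inl i))
        rwa [consC_coord] at h0) i⟩
    have hbt : ∀ t, bt β μ t = ∑ i, γ.1 i * β i t := by
      intro t
      unfold bt
      exact Finset.sum_congr rfl fun i _ => by rw [hμ]
    have h1 := hR1 μ _ (mono_sec H hcf (μ := μ) (a := a) (fun t => ?_) fun v hv => ?_)
    · rw [hmon]
      beta_reduce
      have h2 : (fun i => (μ i : ℤ)) = γ.1 := funext hμ
      have h3 : mC C x β θ γ = (∏ t, x t 0 ^ (bt β μ t)) * (∏ b, C.Y b ^ a b) *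
          (θ ^ ∑ i, μ i)⁻¹ := by
        unfold mC
        have h4 : ∑ i, γ.1 i = ((∑ i, μ i : ℕ) : ℤ) := by
          push_cast
          exact Finset.sum_congr rfl fun i _ => (hμ i).symm
        rw [h4, zpow_neg, zpow_natCast]
        simp only [← hbt, ← ha, zpow_natCast]
        ring
      rw [h3]
      rw [h2] at h1
      exact h1
    · have h0 := hγ (Sum.inr (Sum.inr (Sum.inr t)))
      rw [consC_deg] at h0
      rw [hwbd, hbt]
      simp only [ha]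
      linarith
    · obtain ⟨w, hw, hwv, hwc⟩ := hTgen v hv
      have h1 := exC_adm hL hqs hγ hw hwv hwc
      simp only [← hμ, ← ha] at h1
      push_cast at h1 ⊢
      exact h1
  · -- the sections are spanned by monomials
    refine (Submodule.span_le.2 ?_) (hR2 w hw)
    rintro y ⟨μ, f, hf, rfl⟩
    have hcF := coefT_coefF H hcf hle μ
    obtain ⟨Rp, hR, hRs⟩ := hstr hcF (fun v r hr hv => by
      simp only [← Finset.sum_neg_distrib, Finset.mul_sum]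
      refine Finset.sum_le_sum fun i _ => ?_
      have h1 := mul_le_mul_of_nonneg_left (hmul i v r hr hv) (by positivity : (0 : ℚ) ≤ μ i)
      linarith) 1 0 _ (fsecA_secF (e := e) H (fsec_a hf 0))
    rw [zero_add, pow_one] at hR
    have hx0 : ∏ t, x t 0 ^ (bt β μ t) ≠ 0 :=
      Finset.prod_ne_zero_iff.2 fun t _ => zpow_ne_zero _ (H.hx t 0)
    have hxi : (∏ t, x t 0 ^ (- bt β μ t)) * ∏ t, x t 0 ^ (bt β μ t) = 1 := by
      rw [← Finset.prod_mul_distrib]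
      refine Finset.prod_eq_one fun t _ => ?_
      rw [← zpow_add₀ (H.hx t 0), neg_add_cancel, zpow_zero]
    have hf2 : f = (∏ t, x t 0 ^ (bt β μ t)) * ((∑ i, aeval C.Y (Rp i) * βK i) / Q) := by
      rw [← hR]
      field_simp
      have h1 : f * (∏ t, x t 0 ^ (- bt β μ t)) * ∏ t, x t 0 ^ (bt β μ t) = f := by
        rw [mul_assoc, hxi, mul_one]
      conv_lhs => rw [← h1]
      ring
    have hexp : f * (θ ^ ∑ i, μ i)⁻¹ = ∑ i, ∑ a ∈ (Rp i).support,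
        coeff a (Rp i) • (mC C x β θ (fun i => (μ i : ℤ), fun b => (a b : ℤ)) * (βK i / Q)) := by
      rw [hf2, Finset.sum_div, Finset.mul_sum, Finset.sum_mul]
      refine Finset.sum_congr rfl fun i _ => ?_
      have h3 : aeval C.Y (Rp i) = ∑ a ∈ (Rp i).support, algebraMap ℂ K (coeff a (Rp i)) *
          ∏ b, C.Y b ^ a b := by
        conv_lhs => rw [(Rp i).as_sum, map_sum]
        refine Finset.sum_congr rfl fun a _ => ?_
        rw [aeval_monomial, Finsupp.prod_fintype _ _ fun i => pow_zero _]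
      rw [h3, Finset.sum_mul, Finset.sum_div, Finset.mul_sum, Finset.sum_mul]
      refine Finset.sum_congr rfl fun a _ => ?_
      rw [Algebra.smul_def]
      unfold mC
      have h4 : ∑ i, (μ i : ℤ) = ((∑ i, μ i : ℕ) : ℤ) := by push_cast; rfl
      have h5 : ∀ t, ∑ i, (μ i : ℤ) * β i t = bt β μ t := fun t => rfl
      dsimp only
      rw [h4, zpow_neg, zpow_natCast]
      simp only [h5, zpow_natCast]
      ring
    rw [hexp]
    have hsum : (AddMonoidAlgebra.single (π fun i => (μ i : ℤ)) (∑ i, ∑ a ∈ (Rp i).support,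
        coeff a (Rp i) • (mC C x β θ (fun i => (μ i : ℤ), fun b => (a b : ℤ)) * (βK i / Q))) :
          AddMonoidAlgebra K A) =
        ∑ i, ∑ a ∈ (Rp i).support, coeff a (Rp i) •
          (mon (fun i => (μ i : ℤ), fun b => (a b : ℤ)) *
            AddMonoidAlgebra.single 0 (βK i / Q)) := by
      rw [← AddMonoidAlgebra.singleAddHom_apply, map_sum]
      refine Finset.sum_congr rfl fun i _ => ?_
      rw [map_sum]
      refine Finset.sum_congr rfl fun a _ => ?_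
      rw [AddMonoidAlgebra.singleAddHom_apply, hmon]
      beta_reduce
      rw [AddMonoidAlgebra.single_mul_single, add_zero, AddMonoidAlgebra.smul_single]
    rw [hsum]
    refine Submodule.sum_mem _ fun i _ => Submodule.sum_mem _ fun a ha =>
      Submodule.smul_mem _ _ (Submodule.subset_span ⟨_, i, fun s => ?_, rfl⟩)
    obtain ⟨hw1, hT1⟩ := hRs i a ha
    rcases s with s | k | i' | t
    · rw [consC_vec, hcs, Sum.elim_inl]
      have h1 := hT1 s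
      rw [hX] at h1
      have hLq : (0 : ℚ) < L := by exact_mod_cast hL
      have h2 := mul_le_mul_of_nonneg_left h1 hLq.le
      have h4 : ((∑ i, q i s * (μ i : ℤ) : ℤ) : ℚ) = L * (- ∑ i, (μ i : ℚ) * c i s.1) := by
        push_cast
        rw [← Finset.sum_neg_distrib, Finset.mul_sum]
        refine Finset.sum_congr rfl fun i _ => ?_
        rw [← hqs i s]
        ring
      have h3 : (((- ((L : ℤ) * c1) : ℤ)) : ℚ) ≤
          ((L * ∑ k, (s.1 k : ℤ) * (a (Φ.c k) : ℤ) - ∑ i, q i s * (μ i : ℤ) : ℤ) : ℚ) := by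
        rw [Int.cast_sub, h4]
        push_cast at h2 ⊢
        linarith
      exact Int.cast_le.1 h3
    · rw [consC_coord, hcs, Sum.elim_inr, Sum.elim_inl, neg_zero]
      positivity
    · rw [consC_m, hcs, Sum.elim_inr, Sum.elim_inr, Sum.elim_inl, neg_zero]
      positivity
    · rw [consC_deg, hcs, Sum.elim_inr, Sum.elim_inr, Sum.elim_inr]
      have h1 := hw1 t
      rw [hwbd] at h1
      have h5 : ∑ i, (μ i : ℤ) * β i t = bt β μ t := rfl
      push_cast at h1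
      rw [h5]
      linarith

end Pool.Agent.Q57.CX
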