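import Pool.Agent.Q57.CX.Main
import Pool.Agent.Q57.FT.Cone

/-!
The Cox ring of toroidal divisors is finitely generated.
-/

set_option autoImplicit false
set_option linter.overlappingInstances false
set_option linter.unusedSectionVars false
set_option maxHeartbeats 1000000

open FF MvPolynomial Pool.Agent.W603.LV Pool.Agent.W602.GT Pool.Agent.W602.Cov
open Pool.Agent.TH756.PR Pool.Agent.TH122.AB Pool.Agent.TH756.PN
open Pool.Agent.Y169.CH Pool.Agent.Y169.CH.Cvr Pool.Agent.Q57.TP Pool.Agent.Q57.TQ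
open Pool.Agent.Q57.GM Pool.Agent.Q57.GH Pool.Agent.Q57.FG Pool.Agent.Q57.GG Pool.Agent.Q57.FT

namespace Pool.Agent.Q57.CX

section ring

variable {p : ℕ} {K : Type} [Field K] [Algebra ℂ K]

theorem zsec_zero {N : ℕ} {δ : Fin p → Place ℂ K → ℚ} {μ : Fin p → ℤ} :
    ZSec N δ μ (0 : K) := fun _ _ => Or.inl rfl

theorem zsec_add {N : ℕ} {δ : Fin p → Place ℂ K → ℚ} {μ : Fin p → ℤ} {f f' : K}
    (h : ZSec N δ μ f) (h' : ZSec N δ μ f') : ZSec N δ μ (f + f') := by
  intro P hP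
  by_cases h0 : f + f' = 0
  · exact Or.inl h0
  right
  rcases h P hP with h1 | h1
  · rw [h1, zero_add] at h0 ⊢
    exact (h' P hP).resolve_left h0
  rcases h' P hP with h2 | h2
  · rw [h2, add_zero]
    exact h1
  have h3 : Ge P ⌈- ∑ i, (μ i : ℚ) * δ i P⌉ (f + f') :=
    Ge.add (Or.inr (Int.ceil_le.2 h1)) (Or.inr (Int.ceil_le.2 h2))
  exact Int.ceil_le.1 (h3.resolve_left h0)

theorem zsec_sum {N : ℕ} {δ : Fin p → Place ℂ K → ℚ} {μ : Fin p → ℤ} {ι : Type} (s : Finset ι)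
    (f : ι → K) (h : ∀ i ∈ s, ZSec N δ μ (f i)) : ZSec N δ μ (∑ i ∈ s, f i) := by
  classical
  induction s using Finset.induction_on with
  | empty =>
    rw [Finset.sum_empty]
    exact zsec_zero
  | insert b s hb ih =>
    rw [Finset.sum_insert hb]
    exact zsec_add (h b (Finset.mem_insert_self b s))
      (ih fun i hi => h i (Finset.mem_insert_of_mem hi))

theorem zsec_const {N : ℕ} {δ : Fin p → Place ℂ K → ℚ} (a : ℂ) :
    ZSec N δ 0 (algebraMap ℂ K a) := by
  intro P _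
  by_cases ha : a = 0
  · left
    rw [ha, map_zero]
  · right
    rw [P.ord_const ha]
    simp

/-- the multigraded ring of the sections of all combinations of the divisors -/
def coxRing (N : ℕ) (δ : Fin p → Place ℂ K → ℚ) :
    Subalgebra ℂ (AddMonoidAlgebra K (Fin p → ℤ)) where
  carrier := {f | ∀ μ, ZSec N δ μ (f.coeff μ)}
  mul_mem' := by
    classical
    intro f g hf hg μ
    rw [AddMonoidAlgebra.coeff_mul, Finsupp.sum]
    refine zsec_sum _ _ fun μ1 _ => ?_
    rw [Finsupp.sum]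
    refine zsec_sum _ _ fun μ2 _ => ?_
    split_ifs with h
    · rw [← h]
      exact zsec_mul (hf μ1) (hg μ2)
    · exact zsec_zero
  add_mem' := by
    intro f g hf hg μ
    rw [AddMonoidAlgebra.coeff_add, Finsupp.add_apply]
    exact zsec_add (hf μ) (hg μ)
  algebraMap_mem' := by
    classical
    intro a μ
    rw [AddMonoidAlgebra.coe_algebraMap, Function.comp_apply, AddMonoidAlgebra.coeff_single,
      Finsupp.single_apply]
    split_ifs with h
    · rw [← h]
      exact zsec_const a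
    · exact zsec_zero

theorem single_mem {N : ℕ} {δ : Fin p → Place ℂ K → ℚ} {μ : Fin p → ℤ} {f : K}
    (h : ZSec N δ μ f) : AddMonoidAlgebra.single μ f ∈ coxRing N δ := by
  classical
  intro μ'
  rw [AddMonoidAlgebra.coeff_single, Finsupp.single_apply]
  split_ifs with h1
  · rw [← h1]
    exact h
  · exact zsec_zero

end ring

variable {r R N' p : ℕ} {n : Fin r → ℕ} {K : Type} [Field K] [Algebra ℂ K]
  {e : ((i : Fin r) × Fin (n i)) ≃ Fin (N' + 1)} {Φ : Blk ℂ (N' + 1) r} {C : Cvr Φ K R}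
  {dF : Fin r → ℕ} {x : ∀ i, Fin (n i + 1) → K} {F : ∀ i, MvPolynomial (Fin (n i + 1)) ℂ}
  {c : Fin p → (Fin r → ℕ) → ℚ} {β : Fin p → Fin r → ℤ} {δ : Fin p → Place ℂ K → ℚ}
  {S : Finset (Finset (Fin r → ℕ))} {u : Finset (Fin r → ℕ) → Fin p → Fin r → ℚ}

/-- the difference of the two halves -/
def dif (p : ℕ) : (Fin (p + p) → ℤ) →+ (Fin p → ℤ) :=
  AddMonoidHom.mk' (fun γ i => γ (Fin.castAdd p i) - γ (Fin.natAdd p i)) (by
    intro a b
    funext i
    simp only [Pi.add_apply]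
    ring)

theorem dif_apply {p : ℕ} (γ : Fin (p + p) → ℤ) (i : Fin p) :
    dif p γ i = γ (Fin.castAdd p i) - γ (Fin.natAdd p i) := rfl

/-- **The Cox ring is finitely generated.** -/
theorem coxZ (H : Mon e C dF x F) (hΦ : Smo Φ) (hcf : ∀ i, CoefT dF x F (c i) (β i) (δ i))
    (hS : Fan C.M C.a S) (hu : LinC C.M C.a S c u) : (coxRing (N' + 1) δ).FG := by
  classical
  obtain ⟨c2, hc2⟩ : ∃ c2 : Fin (p + p) → (Fin r → ℕ) → ℚ, c2 = Fin.append c fun i v => - c i v :=
    ⟨_, rfl⟩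
  obtain ⟨β2, hβ2⟩ : ∃ β2 : Fin (p + p) → Fin r → ℤ, β2 = Fin.append β fun i t => - β i t :=
    ⟨_, rfl⟩
  obtain ⟨δ2, hδ2⟩ : ∃ δ2 : Fin (p + p) → Place ℂ K → ℚ, δ2 = Fin.append δ fun i P => - δ i P :=
    ⟨_, rfl⟩
  have hcf2 : ∀ i, CoefT dF x F (c2 i) (β2 i) (δ2 i) := by
    intro i
    rw [hc2, hβ2, hδ2]
    refine Fin.addCases (fun i => ?_) (fun i => ?_) i
    · simp only [Fin.append_left]
      exact hcf i
    · simp only [Fin.append_right]
      refine ⟨by rw [(hcf i).h0, neg_zero], fun P α l v hdat => ?_⟩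
      rw [(hcf i).hδ P α l v hdat]
      push_cast
      simp only [neg_mul, Finset.sum_neg_distrib]
      ring
  have hu2 : LinC C.M C.a S c2 (fun σ => Fin.append (u σ) fun i k => - u σ i k) := by
    intro σ hσ i v hv hvσ
    rw [hc2]
    refine Fin.addCases (fun i => ?_) (fun i => ?_) i
    · simp only [Fin.append_left]
      exact hu σ hσ i v hv hvσ
    · simp only [Fin.append_right]
      rw [hu σ hσ i v hv hvσ, ← Finset.sum_neg_distrib]
      exact Finset.sum_congr rfl fun k _ => by ring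
  obtain ⟨t0, ht0⟩ := hS.bdd hu2
  have hθ := tht_ne H
  have hθ' : tht x F ^ t0 ≠ 0 := pow_ne_zero _ hθ
  obtain ⟨δ3, hδ3⟩ : ∃ δ3 : Fin (p + p) → Place ℂ K → ℚ,
    δ3 = fun i P => δ2 i P - t0 * P.ord (tht x F) := ⟨_, rfl⟩
  -- the sections
  have hsum : ∀ (μ : Fin (p + p) →₀ ℕ) P, ∑ i, (μ i : ℚ) * δ3 i P =
      ∑ i, (dif p (fun i => (μ i : ℤ)) i : ℚ) * δ i P - t0 * (∑ i, (μ i : ℚ)) *
        P.ord (tht x F) := by
    intro μ P
    rw [hδ3, hδ2]
    have h1 : ∑ i, (μ i : ℚ) * ((Fin.append δ fun i P => - δ i P) i P - t0 * P.ord (tht x F)) =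
        ∑ i, (μ i : ℚ) * (Fin.append δ fun i P => - δ i P) i P - t0 * (∑ i, (μ i : ℚ)) *
          P.ord (tht x F) := by
      rw [Finset.mul_sum, Finset.sum_mul, ← Finset.sum_sub_distrib]
      exact Finset.sum_congr rfl fun i _ => by ring
    beta_reduce
    rw [h1]
    congr 1
    rw [Fin.sum_univ_add, ← Finset.sum_add_distrib]
    refine Finset.sum_congr rfl fun i _ => ?_
    rw [Fin.append_left, Fin.append_right, dif_apply]
    push_cast
    ring
  have hsecs : ∀ (μ : Fin (p + p) →₀ ℕ) (f : K), f ≠ 0 → ((FSec (N' + 1) δ3 μ f) ↔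
      ZSec (N' + 1) δ (dif p (fun i => (μ i : ℤ))) (f * ((tht x F ^ t0) ^ ∑ i, μ i)⁻¹)) := by
    intro μ f hf
    have h0 : ((tht x F ^ t0) ^ ∑ i, μ i)⁻¹ ≠ 0 := inv_ne_zero (pow_ne_zero _ hθ')
    have h1 : ∀ P : Place ℂ K, ((P.ord (f * ((tht x F ^ t0) ^ ∑ i, μ i)⁻¹) : ℤ) : ℚ) =
        P.ord f - t0 * (∑ i, (μ i : ℚ)) * P.ord (tht x F) := by
      intro P
      rw [P.ord_mul hf h0, P.ord_inv, P.ord_pow, P.ord_pow]
      push_cast
      ring
    constructor
    · intro h P hP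
      right
      have h2 := (h P hP).resolve_left hf
      rw [hsum] at h2
      rw [h1]
      linarith
    · intro h P hP
      right
      have h2 := (h P hP).resolve_left (mul_ne_zero hf h0)
      rw [h1] at h2
      rw [hsum]
      linarith
  refine coxA (c := fun i v => c2 i v - t0 * ∑ k, (v k : ℚ)) (β := fun i t => β2 i t + t0 * dF t)
    (δ := δ3) (T := S.biUnion id) H hΦ (fun i => ?_) (fun i v hv => ?_)
    (fun i v k hk hv => ?_) hS.mem_adm (fun v hv => ?_) (dif p) hθ' (coxRing (N' + 1) δ)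
    (fun μ f hf => ?_) fun w hw => ?_
  · rw [hδ3]
    exact coefT_shift H (hcf2 i) t0
  · have := ht0 i v hv
    linarith
  · have h1 := hS.ray hu2 i v k hk hv
    have h2 : ∑ j, (((k • v) j : ℕ) : ℚ) = k * ∑ j, (v j : ℚ) := by
      rw [Finset.mul_sum]
      refine Finset.sum_congr rfl fun j _ => ?_
      simp only [Pi.smul_apply, smul_eq_mul]
      push_cast
      ring
    rw [h2]
    have h3 : (k : ℚ) * -(c2 i v - t0 * ∑ j, (v j : ℚ)) = k * (- c2 i v) +
        t0 * (k * ∑ j, (v j : ℚ)) := by ring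
    rw [h3]
    linarith
  · obtain ⟨w, hw, hwv, hwc⟩ := hS.gen hu2 v hv
    refine ⟨w, hw, fun k => (hwv k).ge, fun i => ?_⟩
    have h1 := hwc i
    have h2 : ∑ k, (v k : ℚ) = ∑ s ∈ S.biUnion id, w s * ∑ k, (s k : ℚ) := by
      rw [Finset.sum_congr rfl fun k _ => hwv k, Finset.sum_comm]
      exact Finset.sum_congr rfl fun s _ => (Finset.mul_sum _ _ _).symm
    have h3 : ∑ s ∈ S.biUnion id, w s * -(c2 i s - t0 * ∑ k, (s k : ℚ)) =
        ∑ s ∈ S.biUnion id, w s * (- c2 i s) + t0 * ∑ k, (v k : ℚ) := by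
      rw [h2, Finset.mul_sum, ← Finset.sum_add_distrib]
      exact Finset.sum_congr rfl fun s _ => by ring
    rw [h3]
    linarith
  · by_cases hf0 : f = 0
    · rw [hf0, zero_mul, AddMonoidAlgebra.single_zero]
      exact Subalgebra.zero_mem _
    exact single_mem ((hsecs μ f hf0).1 hf)
  · -- the elements are sums of homogeneous elements
    have hw' : ∀ μ, ZSec (N' + 1) δ μ (w.coeff μ) := hw
    have h1 : w = ∑ μ ∈ w.coeff.support, AddMonoidAlgebra.single μ (w.coeff μ) := by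
      apply AddMonoidAlgebra.coeff_injective
      rw [AddMonoidAlgebra.coeff_sum]
      simp only [AddMonoidAlgebra.coeff_single]
      exact (Finsupp.sum_single w.coeff).symm
    rw [h1]
    refine Submodule.sum_mem _ fun μ hμ => Submodule.subset_span ?_
    have hne : w.coeff μ ≠ 0 := Finsupp.mem_support_iff.1 hμ
    obtain ⟨μ2, hμ2⟩ : ∃ μ2 : Fin (p + p) →₀ ℕ, μ2 = Finsupp.equivFunOnFinite.symm
      (Fin.append (fun i => (μ i).toNat) fun i => (- μ i).toNat) := ⟨_, rfl⟩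
    have hl : ∀ i, μ2 (Fin.castAdd p i) = (μ i).toNat := by
      intro i
      rw [hμ2, Finsupp.equivFunOnFinite_symm_apply_apply, Fin.append_left]
    have hr : ∀ i, μ2 (Fin.natAdd p i) = (- μ i).toNat := by
      intro i
      rw [hμ2, Finsupp.equivFunOnFinite_symm_apply_apply, Fin.append_right]
    have hd : dif p (fun i => (μ2 i : ℤ)) = μ := by
      funext i
      rw [dif_apply, hl, hr]
      exact Int.toNat_sub_toNat_neg _
    have hpow : (tht x F ^ t0) ^ ∑ i, μ2 i ≠ 0 := pow_ne_zero _ hθ'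
    have h2 : w.coeff μ * ((tht x F ^ t0) ^ ∑ i, μ2 i) * ((tht x F ^ t0) ^ ∑ i, μ2 i)⁻¹ =
        w.coeff μ := by
      rw [mul_assoc, mul_inv_cancel₀ hpow, mul_one]
    refine ⟨μ2, w.coeff μ * ((tht x F ^ t0) ^ ∑ i, μ2 i), ?_, ?_⟩
    · rw [hsecs _ _ (mul_ne_zero hne hpow), h2, hd]
      exact hw' μ
    · rw [h2, hd]

end Pool.Agent.Q57.CX
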